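import Mathlib

namespace Pool.Agent.Lib.MP_3f5cd8_lc

variable {V : Type}

/-- The local complement `G_a`: adjacency is toggled on pairs of distinct neighbours of `a`. -/
def localCompl (G : SimpleGraph V) (a : V) : SimpleGraph V where
  Adj x y := x ≠ y ∧ (G.Adj x y ↔ ¬ (G.Adj a x ∧ G.Adj a y))
  symm := ⟨fun x y h => ⟨h.1.symm, by rw [G.adj_comm y x, and_comm]; exact h.2⟩⟩
  loopless := ⟨fun x h => h.1 rfl⟩

open Classical in
/-- The local inversion `B_a = (G_a, β_a)` of a bicoloured graph `B = (G, β)`. -/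
noncomputable def localInv (B : SimpleGraph V × (V → ℤˣ)) (a : V) : SimpleGraph V × (V → ℤˣ) :=
  (localCompl B.1 a, fun x => if B.1.Adj a x then -B.2 x else B.2 x)

/-- The colour-reversal number: the least `ℓ` such that every bicolouration is reversed by a
string of at most `ℓ` local inversions that restores the graph (`⊤` if there is none). -/
noncomputable def cr (G : SimpleGraph V) : ℕ∞ :=
  sInf {ℓ : ℕ∞ | ∀ β : V → ℤˣ, ∃ w : List V,
    (w.length : ℕ∞) ≤ ℓ ∧ w.foldl localInv (G, β) = (G, -β)}

end Pool.Agent.Lib.MP_3f5cd8_lc
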