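import Mathlib
import Pool.Prelude.Def_H_e9e0c647
import Pool.Agent.Lib.MP_3f5cd8_lc.Defs

namespace Pool.Agent.Lib.MP_3f5cd8_lc

open Classical in
/-- The adjacency matrix of a graph on `Fin n`, as a list of rows. -/
noncomputable def adjRows {n : ℕ} (G : SimpleGraph (Fin n)) : List (List Bool) :=
  List.ofFn fun i => List.ofFn fun j => decide (G.Adj i j)

/-- The input string: the pair (adjacency matrix, `k` in binary) in the standard bit encoding. -/
noncomputable def encodeInput {n : ℕ} (G : SimpleGraph (Fin n)) (k : ℕ) : List Bool :=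
  N487b59b3.bitEncode (adjRows G, k)

end Pool.Agent.Lib.MP_3f5cd8_lc
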