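import Pool.Agent.Lib.MP_3f5cd8_lc.Lower
import Pool.Agent.Lib.MP_3f5cd8_lc.Enc
import Pool.Agent.Shared.PolyTime.Enc

namespace Pool.Agent.Lib.MP_3f5cd8_lc

open Pool.Agent.Shared.PolyTime N487b59b3

abbrev Mat : Type := List (List Bool)

def entry (M : Mat) (i j : ℕ) : Bool := (M.getD i []).getD j false

def nb (M : Mat) (a i : ℕ) : Bool := entry M a i && !decide (i = a)

def stepM (M : Mat) (a : ℕ) : Mat :=
  (List.range M.length).map fun i => (List.range M.length).map fun j =>
    xor (entry M i j) (nb M a i && nb M a j)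

def target (M : Mat) : Mat :=
  (List.range M.length).map fun i => (List.range M.length).map fun j =>
    entry M i j || decide (i = j)

def grow (L : List Mat) : List Mat :=
  L ++ L.flatMap fun M => (List.range M.length).map fun a => stepM M a

abbrev St : Type := ℕ × Mat × List Mat

def initS (x : Mat × ℕ) : St :=
  bif decide (x.2 < x.1.length) then (0, x.1, []) else (x.2, target x.1, [x.1])

def stepS (s : St) : St := (s.1 - 1, s.2.1, grow s.2.2)

def flagS (s : St) : Bool := !decide (s.1 = 0)

def outS (s : St) : Bool := decide (s.2.1 ∈ s.2.2)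

open Classical in
/-- The bicoloured graph as a Boolean matrix, colours on the diagonal. -/
noncomputable def toMat {n : ℕ} (B : SimpleGraph (Fin n) × (Fin n → ℤˣ)) : Mat :=
  List.ofFn fun i => List.ofFn fun j =>
    if i = j then decide (B.2 i = -1) else decide (B.1.Adj i j)

lemma length_toMat {n : ℕ} (B : SimpleGraph (Fin n) × (Fin n → ℤˣ)) : (toMat B).length = n := by
  simp [toMat]

open Classical in
lemma entry_toMat {n : ℕ} (B : SimpleGraph (Fin n) × (Fin n → ℤˣ)) (i j : Fin n) :
    entry (toMat B) i j = if i = j then decide (B.2 i = -1) else decide (B.1.Adj i j) := by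
  simp [entry, toMat]

lemma range_map_eq_ofFn {β : Type} (n : ℕ) (f : ℕ → β) :
    (List.range n).map f = List.ofFn fun i : Fin n => f i := by
  apply List.ext_getElem <;> simp

open Classical in
lemma nb_toMat {n : ℕ} (B : SimpleGraph (Fin n) × (Fin n → ℤˣ)) (a i : Fin n) :
    nb (toMat B) a i = decide (B.1.Adj a i) := by
  rw [nb, entry_toMat]
  by_cases h : a = i
  · subst h; simp
  · have : ¬ (i : ℕ) = a := fun e => h (Fin.ext e.symm)
    simp [h, this]

lemma stepM_toMat {n : ℕ} (B : SimpleGraph (Fin n) × (Fin n → ℤˣ)) (a : Fin n) :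
    stepM (toMat B) a = toMat (localInv B a) := by
  rw [stepM, length_toMat]
  simp only [range_map_eq_ofFn, entry_toMat, nb_toMat]
  rw [toMat]
  congr 1
  funext i
  congr 1
  funext j
  simp only [localInv, localCompl]
  by_cases hij : i = j
  · subst hij
    by_cases h : B.1.Adj a i
    · rcases Int.units_eq_one_or (B.2 i) with h1 | h1 <;> simp [h, h1]
    · simp [h]
  · by_cases h1 : B.1.Adj a i <;> by_cases h2 : B.1.Adj a j <;> by_cases h3 : B.1.Adj i j <;>
      simp [hij, h1, h2, h3]

lemma adjRows_eq {n : ℕ} (G : SimpleGraph (Fin n)) : adjRows G = toMat (G, 1) := by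
  rw [adjRows, toMat]
  congr 1
  funext i
  congr 1
  funext j
  by_cases hij : i = j
  · subst hij; simp
  · simp [hij]

lemma target_toMat {n : ℕ} (G : SimpleGraph (Fin n)) :
    target (toMat (G, 1)) = toMat (G, -1) := by
  rw [target, length_toMat]
  simp only [range_map_eq_ofFn, entry_toMat]
  rw [toMat]
  congr 1
  funext i
  congr 1
  funext j
  by_cases hij : i = j
  · subst hij; simp
  · have : ¬ (i : ℕ) = j := fun e => hij (Fin.ext e)
    simp [hij, this]

lemma toMat_inj {n : ℕ} : Function.Injective (toMat (n := n)) := by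
  rintro ⟨G, β⟩ ⟨G', β'⟩ h
  have key : ∀ i j : Fin n, entry (toMat (G, β)) i j = entry (toMat (G', β')) i j := by
    intro i j; rw [h]
  simp only [entry_toMat] at key
  refine Prod.ext ?_ ?_
  · ext i j
    by_cases hij : i = j
    · subst hij; simp
    · simpa [hij] using key i j
  · funext i
    have := key i i
    simp only [if_true, decide_eq_decide] at this
    rcases Int.units_eq_one_or (β i) with h1 | h1 <;>
      rcases Int.units_eq_one_or (β' i) with h2 | h2 <;> simp_all

lemma mem_grow_iter {n : ℕ} (B : SimpleGraph (Fin n) × (Fin n → ℤˣ)) (t : ℕ) : ∀ M : Mat,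
    M ∈ grow^[t] [toMat B] ↔ ∃ w : List (Fin n), w.length ≤ t ∧ M = toMat (w.foldl localInv B) := by
  induction t with
  | zero =>
    intro M
    simp
  | succ t ih =>
    intro M
    rw [Function.iterate_succ_apply', grow]
    simp only [List.mem_append, List.mem_flatMap, List.mem_map, List.mem_range, ih]
    constructor
    · rintro (⟨w, hw, rfl⟩ | ⟨M', ⟨w, hw, rfl⟩, a, ha, rfl⟩)
      · exact ⟨w, by omega, rfl⟩
      · rw [length_toMat] at ha
        refine ⟨w ++ [⟨a, ha⟩], by simp; omega, ?_⟩
        rw [List.foldl_append, List.foldl_cons, List.foldl_nil, ← stepM_toMat]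
    · rintro ⟨w, hw, rfl⟩
      rcases List.eq_nil_or_concat w with rfl | ⟨w', a, rfl⟩
      · exact Or.inl ⟨[], by simp, rfl⟩
      · refine Or.inr ⟨_, ⟨w', by simpa using hw, rfl⟩, a, by simp [length_toMat], ?_⟩
        rw [List.concat_eq_append, List.foldl_append, List.foldl_cons, List.foldl_nil,
          stepM_toMat]

lemma length_grow_iter {n : ℕ} (B : SimpleGraph (Fin n) × (Fin n → ℤˣ)) (t : ℕ) :
    (grow^[t] [toMat B]).length = (n + 1) ^ t := by
  induction t with
  | zero => simp
  | succ t ih =>
    rw [Function.iterate_succ_apply', grow, List.length_append, List.length_flatMap, ih]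
    have : (List.map (fun M : Mat => ((List.range M.length).map fun a => stepM M a).length)
        (grow^[t] [toMat B])) = List.replicate ((n + 1) ^ t) n := by
      rw [List.eq_replicate_iff]
      refine ⟨by simp [ih], ?_⟩
      intro b hb
      obtain ⟨M, hM, rfl⟩ := List.mem_map.mp hb
      obtain ⟨w, -, rfl⟩ := (mem_grow_iter B t M).mp hM
      simp [length_toMat]
    rw [this]
    simp; ring

lemma bsize_toMat {n : ℕ} (B : SimpleGraph (Fin n) × (Fin n → ℤˣ)) :
    bsize (toMat B) ≤ n * (6 * n + 1) := by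
  have := bsize_list_le (toMat B) (3 * n) (by
    intro r hr
    simp only [toMat, List.mem_ofFn] at hr
    obtain ⟨i, rfl⟩ := hr
    rw [bsize_boolList]; simp)
  rw [length_toMat] at this
  nlinarith

lemma stepS_iter (c : ℕ) (T : Mat) (L : List Mat) (t : ℕ) :
    stepS^[t] (c, T, L) = (c - t, T, grow^[t] L) := by
  induction t with
  | zero => rfl
  | succ t ih =>
    rw [Function.iterate_succ_apply', ih, Function.iterate_succ_apply']
    rfl

/-- number of rounds -/
def rounds (n k : ℕ) : ℕ := if k < n then 0 else k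

/-- size measure -/
def szf (n k : ℕ) : ℕ := 100 * (k + 1) ^ (k + 3) * (n + 1) ^ 2

lemma initS_lt {n k : ℕ} (G : SimpleGraph (Fin n)) (h : k < n) :
    initS (adjRows G, k) = (0, toMat (G, 1), []) := by
  simp [initS, adjRows_eq, length_toMat, h]

lemma initS_ge {n k : ℕ} (G : SimpleGraph (Fin n)) (h : ¬ k < n) :
    initS (adjRows G, k) = (k, toMat (G, -1), [toMat (G, 1)]) := by
  simp [initS, adjRows_eq, length_toMat, h, target_toMat]

lemma flag_true {n k : ℕ} (G : SimpleGraph (Fin n)) (i : ℕ) (hi : i < rounds n k) :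
    flagS (stepS^[i] (initS (adjRows G, k))) = true := by
  by_cases h : k < n
  · simp [rounds, h] at hi
  · rw [initS_ge G h, stepS_iter]
    simp only [rounds, if_neg h] at hi
    simp [flagS]; omega

lemma flag_false {n k : ℕ} (G : SimpleGraph (Fin n)) :
    flagS (stepS^[rounds n k] (initS (adjRows G, k))) = false := by
  by_cases h : k < n
  · simp [rounds, h, initS_lt G h, flagS]
  · rw [initS_ge G h, stepS_iter]
    simp [flagS, rounds, h]

open Classical in
lemma out_eq {n k : ℕ} (G : SimpleGraph (Fin n)) :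
    outS (stepS^[rounds n k] (initS (adjRows G, k))) = decide (cr G ≤ k) := by
  by_cases h : k < n
  · have h1 : ¬ cr G ≤ k := by
      intro h2
      have h3 := (card_le_cr G).trans h2
      rw [Fintype.card_fin] at h3
      have : n ≤ k := by exact_mod_cast h3
      omega
    simp [rounds, h, initS_lt G h, outS, h1]
  · rw [initS_ge G h, stepS_iter]
    simp only [outS, rounds, if_neg h, decide_eq_decide, mem_grow_iter, cr_le_iff_one]
    constructor
    · rintro ⟨w, hw, h1⟩; exact ⟨w, hw, (toMat_inj h1).symm⟩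
    · rintro ⟨w, hw, h1⟩; exact ⟨w, hw, by rw [h1]⟩

lemma szf_ge (n k : ℕ) : 100 * (k + 1) * (n + 1) ^ 2 ≤ szf n k := by
  rw [szf]
  apply Nat.mul_le_mul_right
  apply Nat.mul_le_mul_left
  calc k + 1 = (k + 1) ^ 1 := by simp
    _ ≤ _ := Nat.pow_le_pow_right (by omega) (by omega)

lemma rounds_le (n k : ℕ) : rounds n k ≤ szf n k := by
  have h1 := szf_ge n k
  have : rounds n k ≤ k := by rw [rounds]; split_ifs <;> omega
  nlinarith [Nat.zero_le n, Nat.zero_le (k * n), Nat.zero_le (k * n * n)]

lemma bsize_inp {n k : ℕ} (G : SimpleGraph (Fin n)) : bsize (adjRows G, k) ≤ szf n k := by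
  have h1 := szf_ge n k
  have h2 := bsize_toMat (G, 1)
  have h3 := bsize_nat_le_self k
  rw [adjRows_eq, bsize_pair]
  nlinarith [Nat.zero_le n, Nat.zero_le (k * n), Nat.zero_le (k * n * n)]

lemma bsize_state {n k : ℕ} (G : SimpleGraph (Fin n)) (i : ℕ) (hi : i ≤ rounds n k) :
    bsize (stepS^[i] (initS (adjRows G, k))) ≤ szf n k := by
  by_cases h : k < n
  · obtain rfl : i = 0 := by simpa [rounds, h] using hi
    have h1 := szf_ge n k
    have h2 := bsize_toMat (G, 1)
    have h3 := bsize_nat_le_self 0
    rw [initS_lt G h, Function.iterate_zero, id, bsize_pair, bsize_pair, bsize_nil]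
    nlinarith [Nat.zero_le n, Nat.zero_le (k * n), Nat.zero_le (k * n * n)]
  · simp only [rounds, if_neg h] at hi
    rw [initS_ge G h, stepS_iter, bsize_pair, bsize_pair]
    have h2 := bsize_toMat (G, -1)
    have h3 := bsize_nat_le_self (k - i)
    have h4 := bsize_list_le (grow^[i] [toMat (G, 1)]) (n * (6 * n + 1)) (by
      intro M hM
      obtain ⟨w, -, rfl⟩ := (mem_grow_iter _ i M).mp hM
      exact bsize_toMat _)
    rw [length_grow_iter] at h4
    have h5 : (n + 1) ^ i ≤ (k + 1) ^ (k + 3) :=
      (Nat.pow_le_pow_left (by omega) i).trans (Nat.pow_le_pow_right (by omega) (by omega))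
    have h6 : k + 1 ≤ (k + 1) ^ (k + 3) := by
      calc k + 1 = (k + 1) ^ 1 := by simp
        _ ≤ _ := Nat.pow_le_pow_right (by omega) (by omega)
    have h7 : (n + 1) ^ i * (2 * (n * (6 * n + 1)) + 1)
        ≤ (k + 1) ^ (k + 3) * (2 * (n * (6 * n + 1)) + 1) := Nat.mul_le_mul_right _ h5
    rw [szf]
    set P := (k + 1) ^ (k + 3) with hP
    have h8 : k - i ≤ P := by omega
    have h9 : n * (6 * n + 1) ≤ P * (n * (6 * n + 1)) := Nat.le_mul_of_pos_left _ (by omega)
    nlinarith [Nat.zero_le n, Nat.zero_le (P * n), Nat.zero_le (P * n * n)]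

end Pool.Agent.Lib.MP_3f5cd8_lc
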