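import Mathlib
import Pool.Agent.Lib.MP_3f5cd8_lc.Defs

namespace Pool.Agent.Lib.MP_3f5cd8_lc

variable {V : Type}

lemma cr_le_iff (G : SimpleGraph V) (k : ℕ∞) (hk : k ≠ ⊤) :
    cr G ≤ k ↔ ∀ β : V → ℤˣ, ∃ w : List V,
      (w.length : ℕ∞) ≤ k ∧ w.foldl localInv (G, β) = (G, -β) := by
  constructor
  · intro h β
    have hne : {ℓ : ℕ∞ | ∀ β : V → ℤˣ, ∃ w : List V,
        (w.length : ℕ∞) ≤ ℓ ∧ w.foldl localInv (G, β) = (G, -β)}.Nonempty := by
      by_contra hc
      rw [Set.not_nonempty_iff_eq_empty] at hc
      rw [cr, hc, sInf_empty] at h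
      exact hk (top_le_iff.mp h)
    obtain ⟨w, hw, hw'⟩ := csInf_mem hne β
    exact ⟨w, hw.trans h, hw'⟩
  · intro h
    exact sInf_le h

lemma foldl_mul (w : List V) : ∀ (G : SimpleGraph V) (β γ : V → ℤˣ),
    w.foldl localInv (G, β * γ) =
      ((w.foldl localInv (G, γ)).1, β * (w.foldl localInv (G, γ)).2) := by
  induction w with
  | nil => intro G β γ; rfl
  | cons a w ih =>
    intro G β γ
    simp only [List.foldl_cons]
    have : localInv (G, β * γ) a = ((localInv (G, γ) a).1, β * (localInv (G, γ) a).2) := by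
      simp only [localInv, Prod.mk.injEq, true_and]
      funext x
      simp only [Pi.mul_apply]
      split_ifs <;> simp
    rw [this, ih]

lemma cr_le_iff_one (G : SimpleGraph V) (k : ℕ) :
    cr G ≤ k ↔ ∃ w : List V, w.length ≤ k ∧ w.foldl localInv (G, 1) = (G, -1) := by
  rw [cr_le_iff G k (ENat.natCast_ne_top k)]
  constructor
  · intro h
    obtain ⟨w, hw, hw'⟩ := h 1
    exact ⟨w, by exact_mod_cast hw, hw'⟩
  · rintro ⟨w, hw, hw'⟩ β
    refine ⟨w, by exact_mod_cast hw, ?_⟩
    have := foldl_mul w G β 1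
    rw [mul_one, hw'] at this
    rw [this]
    simp

open Classical in
/-- The bicoloured graph as a symmetric matrix over `F_2`, colours on the diagonal. -/
noncomputable def mat (B : SimpleGraph V × (V → ℤˣ)) : Matrix V V (ZMod 2) :=
  fun x y => if x = y then (if B.2 x = 1 then 0 else 1) else (if B.1.Adj x y then 1 else 0)

open Classical in
lemma mat_localInv (B : SimpleGraph V × (V → ℤˣ)) (a : V) :
    mat (localInv B a) = mat B + Matrix.vecMulVec (fun x => if B.1.Adj a x then 1 else 0)
      (fun x => if B.1.Adj a x then 1 else 0) := by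
  have h11 : (1 : ZMod 2) + 1 = 0 := rfl
  ext x y
  simp only [mat, localInv, localCompl, Matrix.add_apply, Matrix.vecMulVec_apply]
  by_cases hxy : x = y
  · subst hxy
    by_cases h : B.1.Adj a x
    · rcases Int.units_eq_one_or (B.2 x) with h1 | h1 <;> simp [h, h1, h11]
    · simp [h]
  · by_cases h1 : B.1.Adj a x <;> by_cases h2 : B.1.Adj a y <;> by_cases h3 : B.1.Adj x y <;>
      simp [hxy, h1, h2, h3, h11]

lemma rank_add_le' [Fintype V] (A B : Matrix V V (ZMod 2)) :
    (A + B).rank ≤ A.rank + B.rank := by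
  classical
  simp only [Matrix.rank]
  rw [Matrix.mulVecLin_add]
  exact (Submodule.finrank_mono (LinearMap.range_add_le _ _)).trans
    (Submodule.finrank_add_le_finrank_add_finrank _ _)

lemma rank_foldl [Fintype V] (w : List V) : ∀ B : SimpleGraph V × (V → ℤˣ),
    (mat (w.foldl localInv B) - mat B).rank ≤ w.length := by
  induction w with
  | nil => intro B; simp
  | cons a w ih =>
    intro B
    simp only [List.foldl_cons, List.length_cons]
    have h1 := ih (localInv B a)
    have h2 : mat (w.foldl localInv (localInv B a)) - mat B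
        = (mat (w.foldl localInv (localInv B a)) - mat (localInv B a))
          + (mat (localInv B a) - mat B) := by abel
    rw [h2]
    refine (rank_add_le' _ _).trans (add_le_add h1 ?_)
    rw [mat_localInv, add_sub_cancel_left]
    exact Matrix.rank_vecMulVec_le _ _

lemma card_le_length [Fintype V] {G : SimpleGraph V} {β : V → ℤˣ} {w : List V}
    (h : w.foldl localInv (G, β) = (G, -β)) : Fintype.card V ≤ w.length := by
  classical
  have h1 := rank_foldl w (G, β)
  rw [h] at h1
  have h2 : mat (G, -β) - mat (G, β) = 1 := by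
    ext x y
    simp only [mat, Matrix.sub_apply, Matrix.one_apply]
    by_cases hxy : x = y
    · subst hxy
      rcases Int.units_eq_one_or (β x) with h1 | h1
      · simp [h1]
      · simp [h1]
    · simp [hxy]
  rwa [h2, Matrix.rank_one] at h1

theorem card_le_cr [Fintype V] (G : SimpleGraph V) : (Fintype.card V : ℕ∞) ≤ cr G := by
  apply le_sInf
  intro ℓ hℓ
  obtain ⟨w, hw, hw'⟩ := hℓ 1
  exact le_trans (by exact_mod_cast card_le_length hw') hw

end Pool.Agent.Lib.MP_3f5cd8_lc
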