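import Pool.Agent.Shared.PolyTime.Bridge

namespace Pool.Agent.Lib.MP_3f5cd8_lc

open Pool.Agent.Shared.PolyTime Function N487b59b3 Turing

/-- control stack contents -/
def ctl (b : Bool) : List Bool := if b then [true] else []

lemma impl_test {α : Type} {sz : α → ℕ} (b : α → Bool) (d : α → List Bool) :
    Impl sz (fun x => mk4 (b x :: d x) [] [] []) (fun x => mk4 (d x) (ctl (b x)) [] []) := by
  refine Impl.case (0 : Fin 4) ?_ ?_ ?_
  · refine Impl.skip.congr_right (fun x => ?_)
    exact absurd x.2 (by simp)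
  · refine Impl.skip.congr_right (fun x => ?_)
    have : b x.1 = false := by simpa using x.2
    simp [ctl, this]
  · refine (Impl.push (1 : Fin 4) true).congr_right (fun x => ?_)
    have : b x.1 = true := by simpa using x.2
    simp [ctl, this]

/-- A `while` loop whose body is polynomial time; the running time is polynomial in any bound
`sz` for the number of rounds and the sizes of the states. -/
theorem impl_while {α σ : Type} {ι : Type} [N487b59b3 α] [N487b59b3 σ] (inp : ι → α)
    (init : α → σ) (g : σ → σ) (flag out : σ → Bool)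
    (h1 : PT init) (h2 : PT g) (h3 : PT flag) (h4 : PT out) (sz T : ι → ℕ)
    (hT : ∀ x, T x ≤ sz x) (hin : ∀ x, bsize (inp x) ≤ sz x)
    (hst : ∀ x i, i ≤ T x → bsize (g^[i] (init (inp x))) ≤ sz x)
    (hf1 : ∀ x i, i < T x → flag (g^[i] (init (inp x))) = true)
    (hf2 : ∀ x, flag (g^[T x] (init (inp x))) = false) :
    Impl sz (fun x => mk4 (bitEncode (inp x)) [] [] [])
      (fun x => mk4 [out (g^[T x] (init (inp x)))] [] [] []) := by
  have c1 : Comp (bitEncode : α → List Bool)
      (fun x => flag (init x) :: bitEncode (init x)) := Comp.append (h3.comp h1) h1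
  have c2 : Comp (bitEncode : σ → List Bool)
      (fun s => flag (g s) :: bitEncode (g s)) := Comp.append (h3.comp h2) h2
  have s1 : Impl sz (fun x => mk4 (bitEncode (inp x)) [] [] [])
      (fun x => mk4 (flag (init (inp x)) :: bitEncode (init (inp x))) [] [] []) :=
    (Impl.call (c1.ghost inp) (0 : Fin 4) (fun _ => rfl) ((Bdd.refl sz).mono hin)).congr_right
      (fun _ => by simp)
  have s2 := impl_test (sz := sz) (fun x => flag (init (inp x))) (fun x => bitEncode (init (inp x)))
  have s3 := Impl.loop (sz := sz) (1 : Fin 4)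
    (fun x i => mk4 (bitEncode (g^[i] (init (inp x)))) (ctl (flag (g^[i] (init (inp x))))) [] [])
    T ((Bdd.refl sz).mono hT) (fun x => by simp [ctl, hf2 x])
    (fun x i hi => by simp [ctl, hf1 x i hi]) (by
      have b1 : Impl (fun y : {y : ι × ℕ // y.2 < T y.1} => sz y.1.1)
          (fun y => mk4 (bitEncode (g^[y.1.2] (init (inp y.1.1)))) [] [] [])
          (fun y => mk4 (flag (g (g^[y.1.2] (init (inp y.1.1)))) ::
            bitEncode (g (g^[y.1.2] (init (inp y.1.1))))) [] [] []) :=
        (Impl.call (c2.ghost (fun y : {y : ι × ℕ // y.2 < T y.1} =>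
          g^[y.1.2] (init (inp y.1.1)))) (0 : Fin 4) (fun _ => rfl)
          ((Bdd.refl _).mono (fun y => hst y.1.1 y.1.2 y.2.le))).congr_right (fun _ => by simp)
      refine (b1.seq (impl_test _ _)).congr (fun y => ?_) (fun y => ?_)
      · simp [ctl, hf1 y.1.1 y.1.2 y.2]
      · rw [Function.iterate_succ_apply'])
  have s4 : Impl sz (fun x => mk4 (bitEncode (g^[T x] (init (inp x)))) [] [] [])
      (fun x => mk4 [out (g^[T x] (init (inp x)))] [] [] []) :=
    (Impl.call (Comp.ghost h4 (fun x => g^[T x] (init (inp x)))) (0 : Fin 4) (fun _ => rfl)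
      ((Bdd.refl sz).mono (fun x => hst x _ le_rfl))).congr_right (fun _ => by simp [enc_bool])
  refine s1.seq (s2.seq (Impl.seq (s3.congr (fun _ => rfl) (fun x => ?_)) s4))
  simp [ctl, hf2 x]

lemma poly_le (p : Polynomial ℕ) : ∃ C d : ℕ, ∀ s, p.eval s + 1 ≤ C * (s + 1) ^ d := by
  refine ⟨p.eval 1 + 1, p.natDegree, fun s => ?_⟩
  have h1 : 1 ≤ (s + 1) ^ p.natDegree := Nat.one_le_pow _ _ (by omega)
  have h2 : p.eval s ≤ p.eval 1 * (s + 1) ^ p.natDegree := by
    rw [Polynomial.eval_eq_sum_range, Polynomial.eval_eq_sum_range, Finset.sum_mul]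
    apply Finset.sum_le_sum
    intro i hi
    rw [one_pow, mul_one]
    apply Nat.mul_le_mul_left
    exact (Nat.pow_le_pow_left (by omega) i).trans
      (Nat.pow_le_pow_right (by omega) (by have := Finset.mem_range.mp hi; omega))
  nlinarith

/-- From `Impl` to a Mathlib Turing machine with an explicit time bound. -/
theorem impl_toTM2 {ι : Type} {sz : ι → ℕ} {e o : ι → List Bool}
    (h : Impl sz (fun x => mk4 (e x) [] [] []) (fun x => mk4 (o x) [] [] [])) :
    ∃ (M : TM2ComputableAux Bool Bool) (C d : ℕ), (∀ j, Finite (M.tm.Γ j)) ∧ ∀ x,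
      Nonempty (TM2OutputsInTime M.tm ((e x).map M.inputAlphabet.symm)
        (some ((o x).map M.outputAlphabet.symm)) (C * (sz x + 1) ^ d)) := by
  obtain ⟨W, _, _, M, p, hp⟩ := h
  obtain ⟨C, d, hC⟩ := poly_le p
  let a : Fin 4 ⊕ W := Sum.inl 0
  have e0 : ∀ l, (single a l : Stk (Fin 4 ⊕ W)) = Sum.elim (mk4 l [] [] []) (fun _ => []) := by
    intro l
    rw [← single_eq_mk4, single, single, ← Sum.update_elim_inl]
    congr 1
    funext k
    cases k <;> rfl
  have hp' : ∀ x, M.Runs (single a (e x)) (single a (o x)) (p.eval (sz x)) := by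
    intro x; rw [e0, e0]; exact hp x
  choose n hn hrun using fun x => SM.RunsFrom.toTM a (hp' x)
  have e1 : ∀ l : List Bool, initList (M.toTM a) l = ⟨some M.start, none, single a l⟩ := by
    intro l
    simp only [initList, SM.toTM]
    congr 1
    funext k
    by_cases hk : k = a
    · subst hk; simp [single]
    · simp [single, hk]
  have e2 : ∀ l : List Bool, haltList (M.toTM a) l = ⟨none, none, single a l⟩ := by
    intro l
    simp only [haltList, SM.toTM]
    congr 1
    funext k
    by_cases hk : k = a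
    · subst hk; simp [single]
    · simp [single, hk]
  refine ⟨⟨M.toTM a, Equiv.refl Bool, Equiv.refl Bool⟩, C, d,
    fun _ => inferInstanceAs (Finite Bool), fun x => ⟨⟨⟨n x, ?_⟩, (hn x).trans (hC _)⟩⟩⟩
  have i1 : ∀ l : List Bool, List.map (Equiv.refl Bool).symm l = l := fun l => List.map_id l
  have h1 := (congrArg (initList (M.toTM a)) (i1 (e x))).trans (e1 (e x))
  have h2 := (congrArg (haltList (M.toTM a)) (i1 (o x))).trans (e2 (o x))
  exact ((congrArg (fun c => (flip bind (M.toTM a).step)^[n x] (some c)) h1).trans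
    (hrun x)).trans (congrArg some h2.symm)

end Pool.Agent.Lib.MP_3f5cd8_lc
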