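import Pool.Agent.Lib.MP_3f5cd8_lc.Algo
import Pool.Agent.Lib.MP_3f5cd8_lc.While

namespace Pool.Agent.Lib.MP_3f5cd8_lc

open Pool.Agent.Shared.PolyTime N487b59b3 Turing

lemma primrec_pow : Primrec₂ (fun a b : ℕ => a ^ b) :=
  Primrec₂.unpaired'.mp Nat.Primrec.pow

open Classical in
theorem fpt_of_pt (h1 : PT initS) (h2 : PT stepS) (h3 : PT flagS) (h4 : PT outS) :
    ∃ (f : ℕ → ℕ) (c : ℕ) (M : TM2ComputableAux Bool Bool),
      Computable f ∧ (∀ j, Finite (M.tm.Γ j)) ∧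
      ∀ (n : ℕ) (G : SimpleGraph (Fin n)) (k : ℕ),
        Nonempty (TM2OutputsInTime M.tm ((encodeInput G k).map M.inputAlphabet.symm)
          (some ([decide (cr G ≤ k)].map M.outputAlphabet.symm)) (f k * (max n 1) ^ c)) := by
  have key := impl_while (ι := Σ n : ℕ, SimpleGraph (Fin n) × ℕ)
    (fun x => (adjRows x.2.1, x.2.2)) initS stepS flagS outS h1 h2 h3 h4
    (fun x => szf x.1 x.2.2) (fun x => rounds x.1 x.2.2)
    (fun x => rounds_le _ _) (fun x => bsize_inp _) (fun x i hi => bsize_state _ i hi)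
    (fun x i hi => flag_true _ i hi) (fun x => flag_false _)
  obtain ⟨M, C, d, hfin, hM⟩ := impl_toTM2 key
  refine ⟨fun k => C * (404 * (k + 1) ^ (k + 3)) ^ d, 2 * d, M, ?_, hfin, fun n G k => ?_⟩
  · apply Primrec.to_comp
    refine Primrec.nat_mul.comp (Primrec.const C) (primrec_pow.comp ?_ (Primrec.const d))
    refine Primrec.nat_mul.comp (Primrec.const 404) (primrec_pow.comp ?_ ?_)
    · exact Primrec.nat_add.comp Primrec.id (Primrec.const 1)
    · exact Primrec.nat_add.comp Primrec.id (Primrec.const 3)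
  · obtain ⟨h⟩ := hM ⟨n, G, k⟩
    simp only [out_eq] at h
    refine ⟨⟨h.toEvalsTo, h.steps_le_m.trans ?_⟩⟩
    rw [mul_assoc, pow_mul, ← mul_pow]
    apply Nat.mul_le_mul_left
    apply Nat.pow_le_pow_left
    rw [szf]
    set P := (k + 1) ^ (k + 3) with hP
    have hP1 : 1 ≤ P := Nat.one_le_pow _ _ (by omega)
    set m := max n 1 with hm
    have h5 : n + 1 ≤ 2 * m := by omega
    have h6 : (n + 1) ^ 2 ≤ (2 * m) ^ 2 := Nat.pow_le_pow_left h5 2
    have h7 : 1 ≤ m := by omega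
    have h8 : 1 ≤ P * m ^ 2 := Nat.mul_pos hP1 (by positivity)
    nlinarith [Nat.mul_le_mul_left (100 * P) h6]

end Pool.Agent.Lib.MP_3f5cd8_lc
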