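import Pool.Agent.Lib.MP_3f5cd8_lc.Main
import Pool.Agent.Shared.PolyTime.Nat

namespace Pool.Agent.Lib.MP_3f5cd8_lc

open Pool.Agent.Shared.PolyTime N487b59b3 N68a2faeb

variable {α : Type} [N487b59b3 α]

lemma getD_eq_drop {β : Type} (l : List β) (i : ℕ) (d : β) : (l.drop i).headD d = l.getD i d := by
  simp [List.getD_eq_getElem?_getD, List.head?_drop]

lemma pt_entry {M : α → Mat} {i j : α → ℕ} (hM : IsPolyTime M) (hi : IsPolyTime i)
    (hj : IsPolyTime j) : IsPolyTime (fun x => entry (M x) (i x) (j x)) :=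
  ((hj.drop ((hi.drop hM).headD (IsPolyTime.const []))).headD (IsPolyTime.const false)).of_eq
    (fun x => by simp only [getD_eq_drop, entry])

lemma pt_nb {M : α → Mat} {a i : α → ℕ} (hM : IsPolyTime M) (ha : IsPolyTime a)
    (hi : IsPolyTime i) : IsPolyTime (fun x => nb (M x) (a x) (i x)) :=
  (pt_entry hM ha hi).and (IsPolyTime.decide_eq hi ha).not

lemma pt_stepM {M : α → Mat} {a : α → ℕ} (hM : IsPolyTime M) (ha : IsPolyTime a) :
    IsPolyTime (fun x => stepM (M x) (a x)) := by
  unfold stepM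
  refine IsPolyTime.map (f := fun x i => (List.range (M x).length).map fun j =>
    xor (entry (M x) i j) (nb (M x) (a x) i && nb (M x) (a x) j)) ?_ hM.range_length
  have hM1 : IsPolyTime (fun p : α × ℕ => M p.1) := hM.comp IsPolyTime.id'.fst
  refine IsPolyTime.map (f := fun (p : α × ℕ) j =>
    xor (entry (M p.1) p.2 j) (nb (M p.1) (a p.1) p.2 && nb (M p.1) (a p.1) j)) ?_
    hM1.range_length
  have hM2 : IsPolyTime (fun q : (α × ℕ) × ℕ => M q.1.1) := hM.comp IsPolyTime.id'.fst.fst
  have ha2 : IsPolyTime (fun q : (α × ℕ) × ℕ => a q.1.1) := ha.comp IsPolyTime.id'.fst.fst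
  exact (pt_entry hM2 IsPolyTime.id'.fst.snd IsPolyTime.id'.snd).xor
    ((pt_nb hM2 ha2 IsPolyTime.id'.fst.snd).and (pt_nb hM2 ha2 IsPolyTime.id'.snd))

lemma pt_target {M : α → Mat} (hM : IsPolyTime M) : IsPolyTime (fun x => target (M x)) := by
  unfold target
  refine IsPolyTime.map (f := fun x i => (List.range (M x).length).map fun j =>
    entry (M x) i j || decide (i = j)) ?_ hM.range_length
  have hM1 : IsPolyTime (fun p : α × ℕ => M p.1) := hM.comp IsPolyTime.id'.fst
  refine IsPolyTime.map (f := fun (p : α × ℕ) j =>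
    entry (M p.1) p.2 j || decide (p.2 = j)) ?_ hM1.range_length
  have hM2 : IsPolyTime (fun q : (α × ℕ) × ℕ => M q.1.1) := hM.comp IsPolyTime.id'.fst.fst
  exact (pt_entry hM2 IsPolyTime.id'.fst.snd IsPolyTime.id'.snd).or
    (IsPolyTime.decide_eq IsPolyTime.id'.fst.snd IsPolyTime.id'.snd)

lemma pt_grow {L : α → List Mat} (hL : IsPolyTime L) : IsPolyTime (fun x => grow (L x)) := by
  unfold grow
  refine hL.append (IsPolyTime.flatMap
    (f := fun _ M => (List.range M.length).map fun a => stepM M a) ?_ hL)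
  refine IsPolyTime.map (f := fun (p : α × Mat) a => stepM p.2 a) ?_
    IsPolyTime.id'.snd.range_length
  exact pt_stepM IsPolyTime.id'.fst.snd IsPolyTime.id'.snd

lemma pt_initS : IsPolyTime initS :=
  IsPolyTime.cond (IsPolyTime.decide_nat_lt IsPolyTime.id'.snd IsPolyTime.id'.fst.length)
    ((IsPolyTime.const 0).pair (IsPolyTime.id'.fst.pair (IsPolyTime.const [])))
    (IsPolyTime.id'.snd.pair ((pt_target IsPolyTime.id'.fst).pair
      (IsPolyTime.id'.fst.cons (IsPolyTime.const []))))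

lemma pt_stepS : IsPolyTime stepS :=
  IsPolyTime.id'.fst.sub_one.pair
    (IsPolyTime.id'.snd.fst.pair (pt_grow IsPolyTime.id'.snd.snd))

lemma pt_flagS : IsPolyTime flagS := IsPolyTime.id'.fst.decide_eq_zero.not

lemma pt_outS : IsPolyTime outS := by
  have h : IsPolyTime (fun s : St => s.2.2.any (fun M => decide (s.2.1 = M))) :=
    IsPolyTime.any (f := fun (s : St) M => decide (s.2.1 = M))
      (IsPolyTime.decide_eq IsPolyTime.id'.fst.snd.fst IsPolyTime.id'.snd)
      IsPolyTime.id'.snd.snd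
  refine h.of_eq (fun s => ?_)
  rw [outS, Bool.eq_iff_iff]
  simp

end Pool.Agent.Lib.MP_3f5cd8_lc
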